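import Pool.Agent.Y643.AC.Main

set_option autoImplicit false

/-!
# Ascending chains of slender edge groups: no splitting at all below the chain

One finitely presented group `G` refutes both questions in the strongest way: `G` splits as an
amalgam `A *_(C n) (B n)` with a fixed vertex group `A`, and as an HNN extension, over each member of
a strictly ascending chain of infinite slender subgroups `C n`, but `G` has no splitting whatsoever
(no nontrivial amalgam, with arbitrary vertex groups, and no HNN extension) over any proper subgroup
of `C 0`. More generally this holds for `G = M × (D * ℤ)`, `C n = M × E n`, where `M` is any infinite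
finitely generated abelian group and `D` is any finitely generated group with a strictly ascending
chain `1 = E 0 < E 1 < ...` of slender subgroups.

Idea. The subgroups of `C 0 = M` are central. Dividing by `C' < C 0`, a splitting over `C'` gives a
decomposition of `G / C'` as a free product, whose centre is trivial, while `M / C'` is central.

`IsAmalgam` (nontrivial amalgams `G = A *_C B`), `Slender` and `SplitsHNN` are the definitions of the
starting results `AscendingChain` and `AscendingHNN`.
-/

namespace Pool.Agent.Results.MP_4681e4_al.NoSplittingBelow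

open Pool.Agent.Results.MP_4681e4_al.AscendingChain (IsAmalgam Slender)
open Pool.Agent.Results.MP_4681e4_al.AscendingHNN (SplitsHNN)

/-- For every `n` the group `G` is a nontrivial amalgam `A *_(C n) (B n)` and also an HNN extension
over `C n`, the `C n` are infinite, slender and strictly ascending, but `G` is neither a nontrivial
amalgam (whatever the vertex groups) nor an HNN extension over any proper subgroup of `C 0`. -/
def StrongCounterexample (G : Type) [Group G] (A : Subgroup G) (B C : ℕ → Subgroup G) : Prop :=
  (∀ n, IsAmalgam A (B n) (C n)) ∧ (∀ n, SplitsHNN (C n)) ∧ (∀ n, Slender (C n)) ∧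
    (∀ n, Infinite (C n)) ∧ (∀ n, C n < C (n + 1)) ∧
    ∀ C' : Subgroup G, C' < C 0 → (∀ A' B' : Subgroup G, ¬ IsAmalgam A' B' C') ∧ ¬ SplitsHNN C'

theorem main (M D : Type) [CommGroup M] [Group D] (E : ℕ → Subgroup D) (hMi : Infinite M)
    (hM : Group.FG M) (hE0 : E 0 = ⊥) (hE : ∀ n, E n < E (n + 1)) (hs : ∀ n, Slender (E n)) :
    StrongCounterexample (M × Monoid.Coprod D (Multiplicative ℤ)) (Y643.AC.vA M D)
      (fun n => Y643.AC.vB (E n)) (fun n => Y643.AC.vC (E n)) := by
  have hD : Nontrivial D := by
    obtain ⟨d, -, hd⟩ := SetLike.exists_of_lt (hE 0)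
    exact ⟨⟨d, 1, fun h => hd (by rw [h]; exact Subgroup.one_mem _)⟩⟩
  refine ⟨fun n => Y643.AC.isAmalgam_v ?_, fun n => Y643.AC.splits_v (E n),
    fun n => Y643.AC.slender_v hM (hs n), fun n => Y643.AC.infinite_v hMi (E n),
    fun n => Y643.AC.vC_lt (hE n), ?_⟩
  · exact ((hE n).trans_le le_top).ne
  · intro C' hC'
    change C' < Y643.AC.vC (E 0) at hC'
    rw [hE0] at hC'
    exact ⟨fun A' B' => Y643.AC.no_amalgam hC' A' B', Y643.AC.no_hnn hC'⟩

/-- (1) Let `M` be an infinite finitely generated abelian group and `D` a finitely generated group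
with a strictly ascending chain `1 = E 0 < E 1 < ...` of slender subgroups. Then the finitely
generated group `G = M × (D * ℤ)` (finitely presented if `M` and `D` are) is, for every `n`, a
nontrivial amalgam of the fixed subgroup `A = M × D` and another subgroup over `C n = M × E n`, and
also an HNN extension over `C n`; the `C n` are slender and infinite; but `G` is neither a nontrivial
amalgam nor an HNN extension over any proper subgroup of `C 0 = M`.
(2) In particular there is a finitely presented group with these properties, so that both questions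
have a negative answer for one and the same finitely presented group. -/
theorem result :
    (∀ (M D : Type) [CommGroup M] [Group D] (E : ℕ → Subgroup D), Infinite M → Group.FG M →
      Group.FG D → E 0 = ⊥ → (∀ n, E n < E (n + 1)) → (∀ n, Slender (E n)) →
      Group.FG (M × Monoid.Coprod D (Multiplicative ℤ)) ∧
      (Group.IsFinitelyPresented M → Group.IsFinitelyPresented D →
        Group.IsFinitelyPresented (M × Monoid.Coprod D (Multiplicative ℤ))) ∧
      ∃ (A : Subgroup (M × Monoid.Coprod D (Multiplicative ℤ)))
        (B C : ℕ → Subgroup (M × Monoid.Coprod D (Multiplicative ℤ))),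
        (∀ g, g ∈ A ↔ ∃ d : D, g.2 = Monoid.Coprod.inl d) ∧
        (∀ n g, g ∈ C n ↔ ∃ d ∈ E n, g.2 = Monoid.Coprod.inl d) ∧
        StrongCounterexample (M × Monoid.Coprod D (Multiplicative ℤ)) A B C) ∧
    ∃ (G : Type) (_ : Group G) (A : Subgroup G) (B C : ℕ → Subgroup G),
      Group.IsFinitelyPresented G ∧ StrongCounterexample G A B C := by
  constructor
  · intro M D _ _ E hMi hM hD hE0 hE hs
    refine ⟨Y643.AC.fg_Gp hM hD, fun h1 h2 => Y643.AC.fp_Gp h1 h2, Y643.AC.vA M D,
      fun n => Y643.AC.vB (E n), fun n => Y643.AC.vC (E n), ?_, ?_,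
      main M D E hMi hM hE0 hE hs⟩
    · rintro ⟨m, p⟩
      constructor
      · rintro ⟨⟨m', d⟩, h⟩
        exact ⟨d, (congrArg Prod.snd h).symm⟩
      · rintro ⟨d, h⟩
        exact ⟨(m, d), Prod.ext rfl h.symm⟩
    · rintro n ⟨m, p⟩
      constructor
      · rintro ⟨⟨m', d⟩, ⟨-, hd⟩, h⟩
        exact ⟨d, hd, (congrArg Prod.snd h).symm⟩
      · rintro ⟨d, hd, h⟩
        exact ⟨(m, d), ⟨Subgroup.mem_top _, hd⟩, Prod.ext rfl h.symm⟩
  · exact ⟨Multiplicative ℤ × Monoid.Coprod Y643.AC.BS (Multiplicative ℤ), inferInstance, _, _, _,
      Y643.AC.fp_Gp inferInstance Y643.AC.fp_BS,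
      main (Multiplicative ℤ) Y643.AC.BS Y643.AC.chainE inferInstance inferInstance
        Y643.AC.chainE_zero Y643.AC.chainE_lt Y643.AC.chainE_slender⟩

end Pool.Agent.Results.MP_4681e4_al.NoSplittingBelow
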